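import Pool.Agent.Q260.OE.Stm2

/-!
# Project OE (helper260), JOB NR2: if RH fails the error stays in place
-/

set_option autoImplicit false

namespace Pool.Agent.Q150.OE

open Complex MeasureTheory Filter Topology Set
open Pool.Agent.Q286.BD (cl mz dif JJ difR JR)
open Pool.Agent.Q260.OE

theorem tail (f : ℝ → ℝ) (hf : IntegrableOn f (Ioi 0)) (e : ℕ → ℝ) (he : ∀ n, 0 ≤ e n)
    (he0 : Tendsto e atTop (𝓝 0)) : Tendsto (fun n => ∫ x in Ioc 0 (e n), f x) atTop (𝓝 0) := by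
  have hg : Integrable ((Ioi (0 : ℝ)).indicator f) := hf.integrable_indicator measurableSet_Ioi
  have hc : Continuous (fun b => ∫ x in (0 : ℝ)..b, (Ioi (0 : ℝ)).indicator f x) :=
    intervalIntegral.continuous_primitive (fun a b => hg.intervalIntegrable) 0
  have h1 := (hc.tendsto 0).comp he0
  rw [intervalIntegral.integral_same] at h1
  refine h1.congr (fun n => ?_)
  simp only [Function.comp]
  rw [intervalIntegral.integral_of_le (he n)]
  apply setIntegral_congr_fun measurableSet_Ioc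
  intro x hx
  exact indicator_of_mem hx.1 f

theorem t_NR2 (hnrh : Pool.Agent.Q286.BD.S_nrh) (hint : Pool.Agent.Q286.BD.S_intR) (hNT : S_NT)
    (hBST : S_BST) (hXW : S_XW) : S_NR2 := by
  intro hRH a ha u hu
  obtain ⟨c, hc0, hc⟩ := hnrh hRH
  obtain ⟨J, hJ⟩ : ∃ J : ℕ → ℝ, J = fun N => JJ N (a N) := ⟨_, rfl⟩
  obtain ⟨e, he⟩ : ∃ e : ℕ → ℝ, e = fun N : ℕ => Real.exp (-(u * Real.log (N : ℝ))) := ⟨_, rfl⟩
  obtain ⟨r, hr⟩ : ∃ r : ℕ → ℝ, r = fun N => ∫ x in Ioc 0 (e N), dif N (a N) x ^ 2 := ⟨_, rfl⟩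
  have hJc : ∀ N, c ≤ J N := fun N => by rw [hJ]; exact hc N (a N)
  have hI : ∀ (N : ℕ) (b : ℕ → ℝ), IntegrableOn (fun x => dif N b x ^ 2) (Ioi 0) := by
    intro N b
    obtain ⟨h1, _, _, _, h5⟩ := hNT N b
    have h2 := hint (nt N b) (fun θ hθ => by
      have h6 := h5 θ hθ
      refine ⟨lt_of_lt_of_le ?_ h6.1, h6.2⟩
      rcases Nat.eq_zero_or_pos N with h0 | h0
      · exfalso
        subst h0
        simp [nt] at hθ
      · positivity)
    rw [h1] at h2
    exact h2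
  have hepos : ∀ N, 0 < e N := fun N => by rw [he]; exact Real.exp_pos _
  have he0 : Tendsto e atTop (𝓝 0) := by
    rw [he]
    apply Real.tendsto_exp_neg_atTop_nhds_zero.comp
    exact (Real.tendsto_log_atTop.comp tendsto_natCast_atTop_atTop).const_mul_atTop hu
  have hdiff : ∀ N M : ℕ, N ≤ M → IntegrableOn (fun x : ℝ => (dif M (a M) x - dif N (a N) x) ^ 2) (Ioi 0) ∧
      ∫ x in Ioi (0 : ℝ), (dif M (a M) x - dif N (a N) x) ^ 2 = J N - J M := by
    intro N M hNM
    rw [hJ]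
    exact hBST.2.2 N M (a N) (a M) hNM (ha N) (ha M)
  have hanti : Antitone J := by
    intro N M hNM
    have h1 := (hdiff N M hNM).2
    have h2 : 0 ≤ ∫ x in Ioi (0 : ℝ), (dif M (a M) x - dif N (a N) x) ^ 2 :=
      setIntegral_nonneg measurableSet_Ioi (fun x _ => sq_nonneg _)
    linarith
  have hbdd : BddBelow (range J) := ⟨c, by rintro _ ⟨N, rfl⟩; exact hJc N⟩
  have hlim := tendsto_atTop_ciInf hanti hbdd
  have hinf : ∀ N, (⨅ i, J i) ≤ J N := fun N => ciInf_le hbdd N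
  have hrnn : ∀ N, 0 ≤ r N := by
    intro N
    rw [hr]
    exact setIntegral_nonneg measurableSet_Ioc (fun x _ => sq_nonneg _)
  have hr0 : Tendsto r atTop (𝓝 0) := by
    rw [Metric.tendsto_atTop]
    intro δ hδ
    obtain ⟨N0, hN0⟩ := ((tendsto_order.1 hlim).2 ((⨅ i, J i) + δ / 8) (by linarith)).exists
    have h1 := tail _ (hI N0 (a N0)) e (fun n => (hepos n).le) he0
    obtain ⟨N1, hN1⟩ := (Metric.tendsto_atTop.1 h1) (δ / 8) (by positivity)
    refine ⟨max N0 N1, fun N hN => ?_⟩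
    have hNN0 : N0 ≤ N := (le_max_left _ _).trans hN
    have h2 := hN1 N ((le_max_right _ _).trans hN)
    rw [Real.dist_eq, sub_zero] at h2 ⊢
    rw [abs_of_nonneg (hrnn N)]
    have hsub : Ioc (0 : ℝ) (e N) ⊆ Ioi 0 := fun x hx => hx.1
    obtain ⟨hd1, hd2⟩ := hdiff N0 N hNN0
    have h3 : r N ≤ 2 * (∫ x in Ioc 0 (e N), dif N0 (a N0) x ^ 2) +
        2 * ∫ x in Ioi (0 : ℝ), (dif N (a N) x - dif N0 (a N0) x) ^ 2 := by
      have i1 : IntegrableOn (fun x => 2 * dif N0 (a N0) x ^ 2) (Ioc 0 (e N)) :=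
        ((hI N0 (a N0)).mono_set hsub).const_mul 2
      have i2 : IntegrableOn (fun x => 2 * (dif N (a N) x - dif N0 (a N0) x) ^ 2) (Ioc 0 (e N)) :=
        (hd1.mono_set hsub).const_mul 2
      have h4 : r N ≤ ∫ x in Ioc 0 (e N), (2 * dif N0 (a N0) x ^ 2 +
          2 * (dif N (a N) x - dif N0 (a N0) x) ^ 2) := by
        rw [hr]
        apply setIntegral_mono ((hI N (a N)).mono_set hsub) (i1.add i2)
        intro x
        show dif N (a N) x ^ 2 ≤ 2 * dif N0 (a N0) x ^ 2 + 2 * (dif N (a N) x - dif N0 (a N0) x) ^ 2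
        nlinarith [sq_nonneg (dif N (a N) x - 2 * dif N0 (a N0) x)]
      rw [integral_add i1 i2, integral_const_mul, integral_const_mul] at h4
      have h5 : ∫ x in Ioc 0 (e N), (dif N (a N) x - dif N0 (a N0) x) ^ 2 ≤
          ∫ x in Ioi (0 : ℝ), (dif N (a N) x - dif N0 (a N0) x) ^ 2 :=
        setIntegral_mono_set hd1 (ae_of_all _ (fun x => sq_nonneg _)) (LE.le.eventuallyLE hsub)
      linarith
    have h6 := abs_lt.1 h2
    have h7 := hinf N
    rw [hd2] at h3
    linarith [h6.2]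
  have hratio : Tendsto (fun N => 1 - r N / J N) atTop (𝓝 1) := by
    have h1 : Tendsto (fun N => r N / J N) atTop (𝓝 0) := by
      have h2 : Tendsto (fun N => r N / c) atTop (𝓝 0) := by
        have := hr0.div_const c
        rwa [zero_div] at this
      apply squeeze_zero (fun N => div_nonneg (hrnn N) (hc0.le.trans (hJc N))) _ h2
      intro N
      exact div_le_div_of_nonneg_left (hrnn N) hc0 (hJc N)
    have := h1.const_sub 1
    rwa [sub_zero] at this
  refine hratio.congr (fun N => ?_)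
  have hJN : 0 < J N := lt_of_lt_of_le hc0 (hJc N)
  have h1 := hXW.2.2.1 (fun x => dif N (a N) x ^ 2) (u * Real.log N)
  have h2 : ∫ w in Iio (u * Real.log N), Dn N (a N) w ^ 2 * Real.exp (-w) = J N - r N := by
    have h3 : ∫ w in Iio (u * Real.log N), Dn N (a N) w ^ 2 * Real.exp (-w) =
        ∫ x in Ioi (Real.exp (-(u * Real.log N))), dif N (a N) x ^ 2 := h1.symm
    rw [h3]
    have h4 : Ioc 0 (e N) ∪ Ioi (e N) = Ioi 0 := Ioc_union_Ioi_eq_Ioi (hepos N).le
    have h5 := setIntegral_union (f := fun x => dif N (a N) x ^ 2) (μ := volume)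
      (Set.disjoint_left.2 (fun x (hx : x ∈ Ioc 0 (e N)) (hx' : x ∈ Ioi (e N)) => absurd hx' (not_lt.2 hx.2)))
      measurableSet_Ioi ((hI N (a N)).mono_set (fun x hx => hx.1))
      ((hI N (a N)).mono_set (fun x (hx : x ∈ Ioi (e N)) => lt_trans (hepos N) hx))
    rw [h4] at h5
    have h6 : J N = ∫ x in Ioi (0 : ℝ), dif N (a N) x ^ 2 := by rw [hJ]; rfl
    have h7 : r N = ∫ x in Ioc 0 (e N), dif N (a N) x ^ 2 := by rw [hr]
    have h8 : e N = Real.exp (-(u * Real.log N)) := by rw [he]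
    rw [← h8, h6, h7, h5]
    ring
  rw [h2]
  have h9 : JJ N (a N) = J N := by rw [hJ]
  rw [h9, sub_div, div_self hJN.ne']

end Pool.Agent.Q150.OE
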